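import Pool.Agent.SNP.B.Frob
import Pool.Agent.SNP.Iface

/-!
# SNP block B: the statement `FROB` of the interface
-/

set_option autoImplicit false

namespace Pool.Agent.SNP.B

open NumberField Polynomial

theorem frob_holds : Pool.Agent.SNP.FROB := by
  intro K _ _ Ω _ _ _ j τ hτ g h B
  letI : Algebra K Ω := j.toAlgebra
  let τ' : Ω ≃ₐ[K] Ω := AlgEquiv.ofRingEquiv (f := τ) hτ
  have hg : g ≠ 0 := by
    rintro rfl
    refine h 0 (by simp) (map_zero τ)
  have h' : ∀ z : Ω, g.eval₂ (algebraMap (𝓞 K) Ω) z = 0 → τ' z ≠ z := by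
    intro z hz
    refine h z ?_
    rw [eval_map]
    exact hz
  obtain ⟨p, hp, hlt, ψ, hψ⟩ := frob K τ' g hg h' B
  exact ⟨p, hp.out, hlt, ψ, hψ⟩

end Pool.Agent.SNP.B
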