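import Pool.Agent.SNP.B.Defs

/-!
# SNP-B-EXT: nonvanishing modulo large primes, extension of homomorphisms

(a) `dvd_int`. PROOF. `β` is integral over `ℤ`, hence algebraic, and nonzero: `IsAlgebraic.exists_nonzero_dvd`
gives `r : ℤ`, `r ≠ 0`, `β ∣ algebraMap r`. Take `n = r.natAbs`. If `x β = 0` then `x (r) = 0`, so
`(r : k) = 0`, `p ∣ r` (`CharP.intCast_eq_zero_iff`), contradiction.

(b) `exists_ext`. PROOF. `𝓞 M` is integral over `𝓞 F` (it is already integral over `ℤ`). Let `P = ker θ`, a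
prime ideal of `𝓞 F`. By lying over (`Ideal.exists_ideal_over_prime_of_isIntegral` or
`Ideal.exists_ideal_liesOver_maximal_of_isIntegral` or a similar lemma; the kernel of `algebraMap (𝓞 F) (𝓞 M)` is trivial) there is a prime
`Q` of `𝓞 M` above `P`. `𝓞 M / Q` is integral over `𝓞 F / P`, `θ` factors through an injective homomorphism of
the domain `𝓞 F / P` into `k`. Make `k` an algebra over `A = 𝓞 F / P`; `IsAlgClosed.lift` (for domains `R → S`
with `Algebra.IsAlgebraic R S` and torsion free) gives `𝓞 M / Q →ₐ[A] k`; compose with the quotient map.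
-/

set_option autoImplicit false

namespace Pool.Agent.SNP.B

open NumberField Polynomial

theorem dvd_int {M : Type} [Field M] [NumberField M] {β : 𝓞 M} (hβ : β ≠ 0) :
    ∃ n : ℕ, n ≠ 0 ∧ ∀ p : ℕ, ¬ p ∣ n → ∀ (k : Type) [Field k] [CharP k p] (x : 𝓞 M →+* k),
      x β ≠ 0 := by
  have hint : IsIntegral ℤ β := Algebra.IsIntegral.isIntegral β
  have halg : IsAlgebraic ℤ β := hint.isAlgebraic
  obtain ⟨r, hr, hdvd⟩ := halg.exists_nonzero_dvd (mem_nonZeroDivisors_of_ne_zero hβ)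
  refine ⟨r.natAbs, Int.natAbs_ne_zero.mpr hr, ?_⟩
  intro p hp k _ _ x hx
  obtain ⟨c, hc⟩ := hdvd
  have h1 : x (algebraMap ℤ (𝓞 M) r) = 0 := by
    rw [hc, map_mul, hx, zero_mul]
  have h2 : ((r : ℤ) : k) = 0 := by
    rw [← h1]
    simp
  rw [CharP.intCast_eq_zero_iff k p] at h2
  exact hp (Int.natCast_dvd.mp h2)

private theorem exists_ext_aux {R S k : Type} [CommRing R] [IsDomain R] [CommRing S] [IsDomain S]
    [Algebra R S] [Algebra.IsIntegral R S] (hinj : Function.Injective (algebraMap R S))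
    [Field k] [IsAlgClosed k] (θ : R →+* k) :
    ∃ x : S →+* k, x.comp (algebraMap R S) = θ := by
  haveI hP : (RingHom.ker θ).IsPrime := RingHom.ker_isPrime θ
  obtain ⟨Q, hQ, hQP⟩ := Ideal.exists_ideal_over_prime_of_isIntegral_of_isDomain (S := S)
    (RingHom.ker θ) (by rw [(RingHom.injective_iff_ker_eq_bot _).1 hinj]; exact bot_le)
  haveI : Q.LiesOver (RingHom.ker θ) := ⟨hQP.symm⟩
  letI : Algebra (R ⧸ RingHom.ker θ) k := (RingHom.kerLift θ).toAlgebra
  haveI : Module.IsTorsionFree (R ⧸ RingHom.ker θ) k :=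
    Module.isTorsionFree_iff_algebraMap_injective.mpr (RingHom.kerLift_injective θ)
  haveI : Module.IsTorsionFree (R ⧸ RingHom.ker θ) (S ⧸ Q) := by
    apply Module.isTorsionFree_iff_algebraMap_injective.mpr
    rw [injective_iff_map_eq_zero]
    intro a ha
    obtain ⟨a, rfl⟩ := Ideal.Quotient.mk_surjective a
    rw [Ideal.Quotient.algebraMap_mk_of_liesOver] at ha
    rw [Ideal.Quotient.eq_zero_iff_mem] at ha ⊢
    rw [← hQP]
    exact ha
  let y : (S ⧸ Q) →ₐ[R ⧸ RingHom.ker θ] k := IsAlgClosed.lift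
  refine ⟨(y : (S ⧸ Q) →+* k).comp (Ideal.Quotient.mk Q), ?_⟩
  ext a
  have h1 := y.commutes (Ideal.Quotient.mk (RingHom.ker θ) a)
  rw [Ideal.Quotient.algebraMap_mk_of_liesOver] at h1
  exact h1

theorem exists_ext {F M : Type} [Field F] [NumberField F] [Field M] [NumberField M] [Algebra F M]
    {k : Type} [Field k] [IsAlgClosed k] (θ : 𝓞 F →+* k) :
    ∃ x : 𝓞 M →+* k, x.comp (algebraMap (𝓞 F) (𝓞 M)) = θ := by
  haveI : Algebra.IsIntegral (𝓞 F) (𝓞 M) := inferInstance
  exact exists_ext_aux (FaithfulSMul.algebraMap_injective (𝓞 F) (𝓞 M)) θ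

end Pool.Agent.SNP.B
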