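import Pool.Agent.SNP.B.Tors

/-!
# SNP-B-CARD: the number of homomorphisms `𝓞 F → F_p`

PROOF. `N` is the number of `tors F M`. Let `¬ p ∣ N`.
If `x ∈ Yset F M p`, `Frob ∘ x = x ∘ h`, then on `𝓞 F` (`act_algebraMap`) the homomorphism
`x.comp (algebraMap (𝓞 F) (𝓞 M))` is fixed by `Frob`, so (`y ^ p = y` in `Kb p` implies `y = algebraMap (ZMod p) (Kb p) c` for some `c`: the
polynomial `X ^ p - X` has at most `p` roots; see `ZMod.algebraMap..`/`FiniteField`/`frobenius` lemmas) it is `(algebraMap (ZMod p) (Kb p)).comp θ` for a unique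
`θ : 𝓞 F →+* ZMod p` (`algebraMap (ZMod p) (Kb p)` is injective). Conversely let `θ : 𝓞 F →+* ZMod p`, and `x` a homomorphism over `ι ∘ θ`
(`ι = algebraMap (ZMod p) (Kb p)`). Then `Frob ∘ x` is also over `ι ∘ θ` (`Frob ∘ ι = ι`, `ZMod.pow_card`), so by the last part of `tors`
there is `h` with `Frob ∘ x = x ∘ act h`, and `x ∈ Yset F M p`. So `Yset F M p` is the disjoint union over `θ` (a finite type: `𝓞 F →+* ZMod p` is
finite, because `𝓞 F` is a finitely generated `ℤ`-module, or because of `Nat.card_eq_zero`-free argument: it injects into ..; see `card_hom_eq` in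
`Pool/Agent/Helper1/SP/HomId.lean`) of the fibres over `ι ∘ θ`, each with `Nat.card (M ≃ₐ[F] M)` elements.
-/

set_option autoImplicit false

namespace Pool.Agent.SNP.B

open NumberField Polynomial

/-- the elements of `Kb p` fixed by Frobenius -/
theorem fr_fixed {p : ℕ} [Fact p.Prime] {y : Kb p} (h : fr p y = y) :
    ∃ c : ZMod p, y = algebraMap (ZMod p) (Kb p) c := by
  have h1 : y ∈ (⊥ : Subfield (Kb p)) := (Subfield.mem_bot_iff_pow_eq_self (Kb p) p).2 h
  obtain ⟨n, hn⟩ := (mem_bot_iff_intCast p (Kb p)).1 h1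
  exact ⟨(n : ZMod p), by rw [map_intCast, hn]⟩


/-- a homomorphism fixed by Frobenius takes its values in the prime field -/
theorem fr_comp_fixed {p : ℕ} [Fact p.Prime] {R : Type} [CommRing R] {x : R →+* Kb p}
    (h : (fr p).comp x = x) : ∃ θ : R →+* ZMod p, x = (algebraMap (ZMod p) (Kb p)).comp θ := by
  have hinj : Function.Injective (algebraMap (ZMod p) (Kb p)) := RingHom.injective _
  have h1 : ∀ r : R, x r ∈ (algebraMap (ZMod p) (Kb p)).range := by
    intro r
    obtain ⟨c, hc⟩ := fr_fixed (y := x r) (congrArg (fun g : R →+* Kb p => g r) h)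
    exact ⟨c, hc.symm⟩
  have h2 : ∀ r : R, ∃ c : ZMod p, algebraMap (ZMod p) (Kb p) c = x r := fun r => h1 r
  choose c hc using h2
  refine ⟨⟨⟨⟨c, ?_⟩, ?_⟩, ?_, ?_⟩, ?_⟩
  · apply hinj
    rw [hc, map_one, map_one]
  · intro a b
    apply hinj
    simp only [map_mul, hc]
  · apply hinj
    simp only
    rw [hc, map_zero, map_zero]
  · intro a b
    apply hinj
    simp only [map_add, hc]
  · ext r
    exact (hc r).symm


theorem card_fix (F M : Type) [Field F] [NumberField F] [Field M] [NumberField M] [Algebra F M]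
    [IsGalois F M] :
    ∃ N : ℕ, N ≠ 0 ∧ ∀ (p : ℕ) [Fact p.Prime], ¬ p ∣ N →
      (Yset F M p).Finite ∧
      (Yset F M p).ncard = Nat.card (M ≃ₐ[F] M) * Nat.card (𝓞 F →+* ZMod p) := by
  obtain ⟨N, hN, h⟩ := tors F M
  refine ⟨N, hN, ?_⟩
  intro p hp hpN
  have hcp : CharP (Kb p) p := inferInstance
  have h0 := h p hp.out hpN (Kb p)
  set ι : ZMod p →+* Kb p := algebraMap (ZMod p) (Kb p) with hι
  have hinj : Function.Injective ι := RingHom.injective _
  have hfrι : (fr p).comp ι = ι := by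
    ext c
    rw [RingHom.comp_apply, fr_apply, ← map_pow, ZMod.pow_card]
  -- the fibres
  set fib : (𝓞 F →+* ZMod p) → Set (𝓞 M →+* Kb p) := fun θ =>
    {x | x.comp (algebraMap (𝓞 F) (𝓞 M)) = ι.comp θ} with hfib
  have hsub : ∀ θ, fib θ ⊆ Yset F M p := by
    intro θ x hx
    have hx' : x.comp (algebraMap (𝓞 F) (𝓞 M)) = ι.comp θ := hx
    have hy : ((fr p).comp x).comp (algebraMap (𝓞 F) (𝓞 M)) = ι.comp θ := by
      rw [RingHom.comp_assoc, hx', ← RingHom.comp_assoc, hfrι]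
    exact (h0 (ι.comp θ)).2.2 x ((fr p).comp x) hx' hy
  have hsup : ∀ x ∈ Yset F M p, ∃ θ, x ∈ fib θ := by
    rintro x ⟨g, hg⟩
    have hact : (act g).comp (algebraMap (𝓞 F) (𝓞 M)) = algebraMap (𝓞 F) (𝓞 M) :=
      RingHom.ext fun y => act_algebraMap g y
    have hfx : (fr p).comp (x.comp (algebraMap (𝓞 F) (𝓞 M))) =
        x.comp (algebraMap (𝓞 F) (𝓞 M)) := by
      rw [← RingHom.comp_assoc, hg, RingHom.comp_assoc, hact]
    exact fr_comp_fixed hfx
  have hfinθ : Finite (𝓞 F →+* ZMod p) := by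
    set b := Module.Free.chooseBasis ℤ (𝓞 F) with hb
    refine Finite.of_injective (β := Module.Free.ChooseBasisIndex ℤ (𝓞 F) → ZMod p)
      (fun θ i => θ (b i)) ?_
    intro θ θ' hh
    have h1 : θ.toAddMonoidHom.toIntLinearMap = θ'.toAddMonoidHom.toIntLinearMap :=
      b.ext fun i => congrFun hh i
    ext z
    exact congrArg (fun l : 𝓞 F →ₗ[ℤ] ZMod p => l z) h1
  have hfibf : ∀ θ, (fib θ).Finite := fun θ => (h0 (ι.comp θ)).1
  have hfibc : ∀ θ, (fib θ).ncard = Nat.card (M ≃ₐ[F] M) := fun θ => (h0 (ι.comp θ)).2.1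
  have hUn : Yset F M p = ⋃ θ, fib θ := by
    ext x
    rw [Set.mem_iUnion]
    exact ⟨hsup x, fun ⟨θ, hθ⟩ => hsub θ hθ⟩
  refine ⟨?_, ?_⟩
  · rw [hUn]
    exact Set.finite_iUnion hfibf
  · have := Fintype.ofFinite (𝓞 F →+* ZMod p)
    have hfi : ∀ θ, Finite (fib θ) := fun θ => (hfibf θ).to_subtype
    have hbij : Function.Bijective (fun s : (Σ θ, fib θ) =>
        (⟨s.2.1, hsub s.1 s.2.2⟩ : Yset F M p)) := by
      constructor
      · rintro ⟨θ, x, hx⟩ ⟨θ', x', hx'⟩ he
        have he' : x = x' := congrArg Subtype.val he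
        subst he'
        have hx1 : x.comp (algebraMap (𝓞 F) (𝓞 M)) = ι.comp θ := hx
        have hx2 : x.comp (algebraMap (𝓞 F) (𝓞 M)) = ι.comp θ' := hx'
        have hθ : θ = θ' := by
          ext z
          apply hinj
          have h3 := hx1.symm.trans hx2
          exact congrArg (fun g : 𝓞 F →+* Kb p => g z) h3
        subst hθ
        rfl
      · rintro ⟨x, hx⟩
        obtain ⟨θ, hθ⟩ := hsup x hx
        exact ⟨⟨θ, x, hθ⟩, rfl⟩
    have hc : Nat.card (Σ θ, fib θ) = Nat.card (Yset F M p) := Nat.card_eq_of_bijective _ hbij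
    have hY : (Yset F M p).ncard = Nat.card (Yset F M p) := rfl
    rw [hY, ← hc, Nat.card_sigma]
    have h4 : ∀ θ, Nat.card (fib θ) = Nat.card (M ≃ₐ[F] M) := hfibc
    simp only [h4, Finset.sum_const, Finset.card_univ, smul_eq_mul]
    rw [Nat.card_eq_fintype_card (α := 𝓞 F →+* ZMod p), mul_comm]


end Pool.Agent.SNP.B
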