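import Mathlib

/-!
# SNP block B (Frobenius density): definitions

`Kb p` is an algebraic closure of the prime field. For an automorphism `h` of `M` over `F` let `act h`
be the induced endomorphism of the ring of integers. `Yset F M p` is the set of the ring homomorphisms
`x : 𝓞 M → Kb p` such that `Frob ∘ x = x ∘ h` for some `h` in `Gal(M/F)`.
-/

set_option autoImplicit false

namespace Pool.Agent.SNP.B

open NumberField Polynomial

/-- an algebraic closure of the field with `p` elements -/
abbrev Kb (p : ℕ) [Fact p.Prime] : Type := AlgebraicClosure (ZMod p)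

/-- the Frobenius endomorphism `y ↦ y ^ p` of `Kb p` -/
noncomputable def fr (p : ℕ) [Fact p.Prime] : Kb p →+* Kb p := frobenius (Kb p) p

theorem fr_apply {p : ℕ} [Fact p.Prime] (y : Kb p) : fr p y = y ^ p := rfl

/-- the endomorphism of the ring of integers of `M` induced by an automorphism of `M` over `F` -/
noncomputable def act {F M : Type} [Field F] [Field M] [Algebra F M] (h : M ≃ₐ[F] M) :
    𝓞 M →+* 𝓞 M :=
  RingOfIntegers.mapRingHom (h : M →ₐ[F] M).toRingHom

theorem act_coe {F M : Type} [Field F] [Field M] [Algebra F M] (h : M ≃ₐ[F] M) (x : 𝓞 M) :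
    ((act h x : 𝓞 M) : M) = h (x : M) := rfl

theorem act_mul {F M : Type} [Field F] [Field M] [Algebra F M] (h h' : M ≃ₐ[F] M) :
    act (h * h') = (act h).comp (act h') := by
  ext x
  rfl

theorem act_one {F M : Type} [Field F] [Field M] [Algebra F M] :
    act (1 : M ≃ₐ[F] M) = RingHom.id (𝓞 M) := by
  ext x
  rfl

theorem act_algebraMap {F M : Type} [Field F] [Field M] [Algebra F M] (h : M ≃ₐ[F] M) (x : 𝓞 F) :
    act h (algebraMap (𝓞 F) (𝓞 M) x) = algebraMap (𝓞 F) (𝓞 M) x := by
  apply RingOfIntegers.ext
  rw [act_coe]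
  exact h.commutes (x : F)

/-- the homomorphisms `x : 𝓞 M → Kb p` on which Frobenius acts through an element of `Gal(M/F)` -/
def Yset (F M : Type) [Field F] [Field M] [Algebra F M] (p : ℕ) [Fact p.Prime] :
    Set (𝓞 M →+* Kb p) :=
  {x | ∃ h : M ≃ₐ[F] M, (fr p).comp x = x.comp (act h)}

end Pool.Agent.SNP.B
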