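import Pool.Agent.SNP.B.Defs

/-!
# SNP-B-FIB: at most `[M : F]` extensions

PROOF. `M / F` is finite and separable: let `α₀` be a primitive element (`Field.exists_primitive_element`), and
multiply it by a nonzero integer to get an integral one: `α : 𝓞 M` with `F⟮α⟯ = ⊤` (for example
`exists_integral_multiple` or `IsIntegral.exists_multiple_integral_of_isLocalization` over `ℤ`). Let `m : (𝓞 F)[X]` be its
minimal polynomial over `𝓞 F` (`minpoly (𝓞 F) α`, monic; its image over `F` is `minpoly F (α : M)` by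
`minpoly.isIntegrallyClosed_eq_field_fractions`, so its degree is `finrank F M`,
`Field.primitive_element_iff_minpoly_natDegree_eq`).
There is a natural number `D ≠ 0` such that `D y ∈ Algebra.adjoin (𝓞 F) {α}` for all `y : 𝓞 M`: every `y ∈ M` is a polynomial in `α` with
coefficients in `F = Frac (𝓞 F)`, and every element of `F` is an element of `𝓞 F` divided by a nonzero natural number;
`𝓞 M` is a finitely generated `ℤ`-module, so take the product over a finite set of generators (the same argument is written out in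
`Pool/Agent/Helper1/SP/HomExt.lean`, proof of `card_hom_ext`). Put `N = D`. Let `p` be a prime with `¬ p ∣ D` and `k` a field of
characteristic `p`, `θ : 𝓞 F → k`. Two homomorphisms `x, x'` over `θ` with `x α = x' α` agree on
`Algebra.adjoin (𝓞 F) {α}`, hence `D x(y) = D x'(y)` for all `y`, hence `x = x'`. And `x α` is a root of `m.map θ`, a monic polynomial of degree
`finrank F M`. So `x ↦ x α` is an injection of the fibre into the root set of `m.map θ`.
-/

set_option autoImplicit false

namespace Pool.Agent.SNP.B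

open NumberField Polynomial

/-- every element of a number field becomes integral after multiplication by a nonzero natural number -/
private theorem exists_nat_mul (K : Type) [Field K] [NumberField K] (z : K) :
    ∃ n : ℕ, n ≠ 0 ∧ ∃ w : 𝓞 K, (w : K) = (n : K) * z := by
  have hz : IsAlgebraic ℤ z := by
    have h1 : IsAlgebraic ℚ z := Algebra.IsAlgebraic.isAlgebraic z
    exact (IsFractionRing.isAlgebraic_iff ℤ ℚ K).2 h1
  obtain ⟨y, hy, hyi⟩ := hz.exists_integral_multiple
  rw [zsmul_eq_mul] at hyi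
  refine ⟨y.natAbs, Int.natAbs_ne_zero.2 hy, ?_⟩
  rcases Int.natAbs_eq y with h | h
  · refine ⟨⟨(y : K) * z, hyi⟩, ?_⟩
    change (y : K) * z = _
    have h1 : (y : K) = ((y.natAbs : ℤ) : K) := congrArg (fun t : ℤ => (t : K)) h
    rw [h1, Int.cast_natCast]
  · refine ⟨⟨-((y : K) * z), hyi.neg⟩, ?_⟩
    change -((y : K) * z) = _
    have h1 : (y : K) = ((-(y.natAbs : ℤ) : ℤ) : K) := congrArg (fun t : ℤ => (t : K)) h
    rw [h1, Int.cast_neg, Int.cast_natCast]
    ring

/-- denominators of the elements of `𝓞 M` with respect to `(𝓞 F)[α]` -/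
private theorem denom_aux (F M : Type) [Field F] [NumberField F] [Field M] [NumberField M]
    [Algebra F M] (α : 𝓞 M) (hα : Algebra.adjoin F {(α : M)} = ⊤) (y : M) :
    ∃ n : ℕ, n ≠ 0 ∧ ∃ a ∈ Algebra.adjoin (𝓞 F) {α}, ((a : 𝓞 M) : M) = (n : M) * y := by
  have hy : y ∈ Algebra.adjoin F {(α : M)} := by
    rw [hα]
    trivial
  induction hy using Algebra.adjoin_induction with
  | mem x hx =>
    rw [Set.mem_singleton_iff] at hx
    refine ⟨1, one_ne_zero, α, Algebra.subset_adjoin rfl, ?_⟩
    rw [hx]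
    simp
  | algebraMap r =>
    obtain ⟨n, hn, w, hw⟩ := exists_nat_mul F r
    refine ⟨n, hn, algebraMap (𝓞 F) (𝓞 M) w, Subalgebra.algebraMap_mem _ _, ?_⟩
    change algebraMap (𝓞 M) M (algebraMap (𝓞 F) (𝓞 M) w) = _
    rw [← IsScalarTower.algebraMap_apply (𝓞 F) (𝓞 M) M, IsScalarTower.algebraMap_apply (𝓞 F) F M]
    change algebraMap F M (w : F) = _
    rw [hw, map_mul, map_natCast]
  | add x y _ _ hx hy =>
    obtain ⟨n, hn, a, ha, hax⟩ := hx
    obtain ⟨m, hm, b, hb, hby⟩ := hy
    refine ⟨n * m, mul_ne_zero hn hm, (m : 𝓞 M) * a + (n : 𝓞 M) * b,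
      add_mem (mul_mem (natCast_mem _ _) ha) (mul_mem (natCast_mem _ _) hb), ?_⟩
    have hax' : algebraMap (𝓞 M) M a = (n : M) * x := hax
    have hby' : algebraMap (𝓞 M) M b = (m : M) * y := hby
    change algebraMap (𝓞 M) M ((m : 𝓞 M) * a + (n : 𝓞 M) * b) = _
    rw [map_add, map_mul, map_mul, map_natCast, map_natCast, hax', hby']
    push_cast
    ring
  | mul x y _ _ hx hy =>
    obtain ⟨n, hn, a, ha, hax⟩ := hx
    obtain ⟨m, hm, b, hb, hby⟩ := hy
    refine ⟨n * m, mul_ne_zero hn hm, a * b, mul_mem ha hb, ?_⟩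
    have hax' : algebraMap (𝓞 M) M a = (n : M) * x := hax
    have hby' : algebraMap (𝓞 M) M b = (m : M) * y := hby
    change algebraMap (𝓞 M) M (a * b) = _
    rw [map_mul, hax', hby']
    push_cast
    ring

/-- a common denominator -/
private theorem denom (F M : Type) [Field F] [NumberField F] [Field M] [NumberField M]
    [Algebra F M] (α : 𝓞 M) (hα : Algebra.adjoin F {(α : M)} = ⊤) :
    ∃ N : ℕ, N ≠ 0 ∧ ∀ y : 𝓞 M, (N : 𝓞 M) * y ∈ Algebra.adjoin (𝓞 F) {α} := by
  classical
  have h1 : ∀ y : 𝓞 M, ∃ n : ℕ, n ≠ 0 ∧ (n : 𝓞 M) * y ∈ Algebra.adjoin (𝓞 F) {α} := by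
    intro y
    obtain ⟨n, hn, a, ha, hay⟩ := denom_aux F M α hα (y : M)
    refine ⟨n, hn, ?_⟩
    have : (n : 𝓞 M) * y = a := by
      apply RingOfIntegers.ext
      rw [hay]
      simp
    rw [this]
    exact ha
  choose nn hnn hnn' using h1
  obtain ⟨S, hS⟩ := (Module.Finite.fg_top : (⊤ : Submodule ℤ (𝓞 M)).FG)
  refine ⟨∏ w ∈ S, nn w, Finset.prod_ne_zero_iff.2 (fun w _ => hnn w), ?_⟩
  intro z
  have hz : z ∈ Submodule.span ℤ (S : Set (𝓞 M)) := by
    rw [hS]
    trivial
  induction hz using Submodule.span_induction with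
  | mem x hx =>
    have hx' : x ∈ S := hx
    rw [← Finset.mul_prod_erase S nn hx']
    push_cast
    rw [mul_comm (nn x : 𝓞 M), mul_assoc]
    refine mul_mem ?_ (hnn' x)
    exact prod_mem fun c _ => natCast_mem _ _
  | zero => rw [mul_zero]; exact zero_mem _
  | add x y _ _ hx hy => rw [mul_add]; exact add_mem hx hy
  | smul c x _ hx =>
    rw [mul_smul_comm]
    exact zsmul_mem hx c

theorem fibre_le (F M : Type) [Field F] [NumberField F] [Field M] [NumberField M] [Algebra F M] :
    ∃ N : ℕ, N ≠ 0 ∧ ∀ p : ℕ, p.Prime → ¬ p ∣ N → ∀ (k : Type) [Field k] [CharP k p] (θ : 𝓞 F →+* k),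
      {x : 𝓞 M →+* k | x.comp (algebraMap (𝓞 F) (𝓞 M)) = θ}.Finite ∧
      {x : 𝓞 M →+* k | x.comp (algebraMap (𝓞 F) (𝓞 M)) = θ}.ncard ≤ Module.finrank F M := by
  classical
  have hfd : FiniteDimensional F M := Module.Finite.of_restrictScalars_finite ℚ F M
  obtain ⟨α₀, hα₀⟩ := Field.exists_primitive_element F M
  obtain ⟨n, hn, α, hα⟩ := exists_nat_mul M α₀
  have hnM : (n : M) ≠ 0 := Nat.cast_ne_zero.2 hn
  have hprim : IntermediateField.adjoin F {(α : M)} = ⊤ := by
    rw [eq_top_iff, ← hα₀, IntermediateField.adjoin_simple_le_iff]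
    have h1 : (α : M) ∈ IntermediateField.adjoin F {(α : M)} :=
      IntermediateField.mem_adjoin_simple_self F (α : M)
    have h2 : α₀ = (n : M)⁻¹ * (α : M) := by
      rw [hα]
      field_simp
    rw [h2]
    exact mul_mem (inv_mem (natCast_mem _ n)) h1
  have hadj : Algebra.adjoin F {(α : M)} = ⊤ := by
    have h1 : IsAlgebraic F (α : M) := Algebra.IsAlgebraic.isAlgebraic _
    rw [← IntermediateField.adjoin_simple_toSubalgebra_of_isAlgebraic h1, hprim]
    rfl
  obtain ⟨N, hN, hNy⟩ := denom F M α hadj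
  have hint : IsIntegral (𝓞 F) α := Algebra.IsIntegral.isIntegral α
  set m : (𝓞 F)[X] := minpoly (𝓞 F) α with hm
  have hmm : m.Monic := minpoly.monic hint
  have hdeg : m.natDegree = Module.finrank F M := by
    have h1 := (Field.primitive_element_iff_minpoly_natDegree_eq F (α : M)).1 hprim
    have h2 : minpoly F (algebraMap (𝓞 M) M α) = m.map (algebraMap (𝓞 F) F) :=
      minpoly.isIntegrallyClosed_eq_field_fractions F M hint
    rw [← h1]
    change _ = (minpoly F (algebraMap (𝓞 M) M α)).natDegree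
    rw [h2, hmm.natDegree_map]
  refine ⟨N, hN, ?_⟩
  intro p hp hpN k _ _ θ
  have hNk : (N : k) ≠ 0 := by
    intro h
    exact hpN ((CharP.cast_eq_zero_iff k p N).1 h)
  have hmk : (m.map θ).Monic := hmm.map θ
  have hmaps : ∀ x ∈ {x : 𝓞 M →+* k | x.comp (algebraMap (𝓞 F) (𝓞 M)) = θ},
      x α ∈ (((m.map θ).roots.toFinset : Finset k) : Set k) := by
    intro x hx
    rw [Set.mem_ofPred_eq] at hx
    rw [Finset.mem_coe, Multiset.mem_toFinset, mem_roots hmk.ne_zero, IsRoot.def, eval_map, ← hx,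
      ← hom_eval₂]
    have h3 : eval₂ (algebraMap (𝓞 F) (𝓞 M)) α m = 0 := by
      have := minpoly.aeval (𝓞 F) α
      rwa [aeval_def] at this
    rw [h3, map_zero]
  have hinj : Set.InjOn (fun x : 𝓞 M →+* k => x α)
      {x : 𝓞 M →+* k | x.comp (algebraMap (𝓞 F) (𝓞 M)) = θ} := by
    intro x hx x' hx' h
    rw [Set.mem_ofPred_eq] at hx hx'
    have hxα : x α = x' α := h
    have h4 : ∀ y ∈ Algebra.adjoin (𝓞 F) {α}, x y = x' y := by
      intro y hy
      induction hy using Algebra.adjoin_induction with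
      | mem y hy =>
        rw [Set.mem_singleton_iff] at hy
        rw [hy, hxα]
      | algebraMap r =>
        have h5 := congrArg (fun f : 𝓞 F →+* k => f r) (hx.trans hx'.symm)
        exact h5
      | add y z _ _ hy hz => rw [map_add, map_add, hy, hz]
      | mul y z _ _ hy hz => rw [map_mul, map_mul, hy, hz]
    ext y
    have h6 := h4 _ (hNy y)
    rw [map_mul, map_mul, map_natCast, map_natCast] at h6
    exact mul_left_cancel₀ hNk h6
  refine ⟨Set.Finite.of_injOn hmaps hinj (Finset.finite_toSet _), ?_⟩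
  calc _ ≤ (((m.map θ).roots.toFinset : Finset k) : Set k).ncard :=
        Set.ncard_le_ncard_of_injOn _ hmaps hinj (Finset.finite_toSet _)
    _ = (m.map θ).roots.toFinset.card := Set.ncard_coe_finset _
    _ ≤ Multiset.card (m.map θ).roots := Multiset.toFinset_card_le _
    _ ≤ (m.map θ).natDegree := card_roots' _
    _ = m.natDegree := hmm.natDegree_map θ
    _ = _ := hdeg

end Pool.Agent.SNP.B
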