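import Pool.Agent.SNP.B.Roots

/-!
# SNP-B-FROB: the theorem

PROOF. (1) Reduction to `g` monic: `G = g.integralNormalization` (or `scaleRoots`), monic in `(𝓞 K)[X]`; `G (a x) = a^(D-1) g x`, `a` the leading coefficient, `D` the degree
(`Polynomial.integralNormalization_eval₂_leadingCoeff_mul`). If `D = 0`, `g = C a` with `a ≠ 0`: choose (`roots_monic` for `g = 1`, or `exists_gen`) a large `p` and `ψ : 𝓞 K → ZMod p`, and `ψ a ≠ 0` by `dvd_int` (`p` large).
If `D ≥ 1`: a root `z` of `G` in `Ω` gives the root `z / a` of `g`, so `τ z ≠ z`. If `y` is a root of `g.map ψ` then `ψ a * y` is a root of `G.map ψ`.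
(2) `G` monic. `M` = the splitting field of `G` inside `Ω`, `IntermediateField.adjoin K (roots of G in Ω)`: finite dimensional, Galois over `K` (`IsGalois` from `Polynomial.IsSplittingField`, characteristic zero), a number field. `σ` is the
restriction of `τ` (`AlgEquiv.restrictNormal`). The roots of `G` in `M` are integral over `ℤ`, hence come from `𝓞 M`; `G` splits over `𝓞 M` with a multiset `s` of roots; `σ` fixes none of them. Apply `roots_monic`.
-/

set_option autoImplicit false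

namespace Pool.Agent.SNP.B

open NumberField Polynomial

private theorem frob_aux {Ω : Type} [Field Ω] (K : Type) [Field K] [NumberField K]
    [Algebra K Ω] (τ : Ω ≃ₐ[K] Ω) (g : (𝓞 K)[X]) (hg : g.Monic)
    (h : ∀ z : Ω, g.eval₂ (algebraMap (𝓞 K) Ω) z = 0 → τ z ≠ z) (M : IntermediateField K Ω)
    [NumberField M] [IsGalois K M] (hM : ((g.map (algebraMap (𝓞 K) K)).map (algebraMap K M)).Splits) (P₀ : ℕ) :
    ∃ (p : ℕ) (_ : Fact p.Prime), P₀ < p ∧ ∃ ψ : 𝓞 K →+* ZMod p,
      ∀ y : ZMod p, (g.map ψ).eval y ≠ 0 := by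
  classical
  let σ : M ≃ₐ[K] M := τ.restrictNormal M
  have hσ : ∀ x : M, ((σ x : M) : Ω) = τ (x : Ω) := fun x => τ.restrictNormal_commutes M x
  set gM : (M : Type)[X] := (g.map (algebraMap (𝓞 K) K)).map (algebraMap K M) with hgM
  have hmon : gM.Monic := (hg.map _).map _
  have hprod := hM.eq_prod_roots_of_monic hmon
  let lift : M → 𝓞 M := fun r => if hr : IsIntegral ℤ r then ⟨r, hr⟩ else 0
  have hint : ∀ r ∈ gM.roots, IsIntegral ℤ r := by
    intro r hr
    have h1 : gM.eval r = 0 := (mem_roots'.1 hr).2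
    have h2 : IsIntegral (𝓞 K) r := by
      refine ⟨g, hg, ?_⟩
      rw [hgM, eval_map, eval₂_map] at h1
      exact h1
    haveI : IsScalarTower ℤ (𝓞 K) M := IsScalarTower.of_algebraMap_eq fun z => by simp
    exact isIntegral_trans (R := ℤ) (A := 𝓞 K) r h2
  have hlift : ∀ r ∈ gM.roots, ((lift r : 𝓞 M) : M) = r := by
    intro r hr
    simp only [lift, dif_pos (hint r hr)]
    rfl
  refine roots_monic K M σ g (gM.roots.map lift) ?_ ?_ P₀
  · apply Polynomial.map_injective (algebraMap (𝓞 M) M) RingOfIntegers.coe_injective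
    have h1 : (g.map (algebraMap (𝓞 K) (𝓞 M))).map (algebraMap (𝓞 M) M) = gM := by
      rw [hgM, Polynomial.map_map, Polynomial.map_map]
      congr 1
    have h2 : ((gM.roots.map lift).map fun r => (X - C r : (𝓞 M)[X])).map (Polynomial.map (algebraMap (𝓞 M) M)) =
        gM.roots.map fun r => (X - C r : (M : Type)[X]) := by
      rw [Multiset.map_map, Multiset.map_map]
      refine Multiset.map_congr rfl fun r hr => ?_
      simp only [Function.comp_apply, Polynomial.map_sub, map_X, map_C]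
      have h3 : (algebraMap (𝓞 M) M) (lift r) = r := hlift r hr
      rw [h3]
    rw [h1, Polynomial.map_multiset_prod, h2]
    exact hprod
  · intro r hr hfix
    obtain ⟨r', hr', rfl⟩ := Multiset.mem_map.1 hr
    rw [hlift r' hr'] at hfix
    have h1 : gM.eval r' = 0 := (mem_roots'.1 hr').2
    refine h (r' : Ω) ?_ ?_
    · have h2 := congrArg (algebraMap M Ω) h1
      rw [hgM, eval_map, eval₂_map, hom_eval₂, map_zero] at h2
      exact h2
    · rw [← hσ, hfix]

private theorem frob_monic {Ω : Type} [Field Ω] [CharZero Ω] [IsAlgClosed Ω] (K : Type) [Field K] [NumberField K]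
    [Algebra K Ω] (τ : Ω ≃ₐ[K] Ω) (g : (𝓞 K)[X]) (hg : g.Monic)
    (h : ∀ z : Ω, g.eval₂ (algebraMap (𝓞 K) Ω) z = 0 → τ z ≠ z) (P₀ : ℕ) :
    ∃ (p : ℕ) (_ : Fact p.Prime), P₀ < p ∧ ∃ ψ : 𝓞 K →+* ZMod p,
      ∀ y : ZMod p, (g.map ψ).eval y ≠ 0 := by
  classical
  set gK : K[X] := g.map (algebraMap (𝓞 K) K) with hgK
  have hsp : (gK.map (algebraMap K Ω)).Splits := IsAlgClosed.splits _
  set M : IntermediateField K Ω := IntermediateField.adjoin K (gK.rootSet Ω) with hM
  haveI hSF : gK.IsSplittingField K M := IntermediateField.adjoin_rootSet_isSplittingField hsp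
  haveI : FiniteDimensional K M := IsSplittingField.finiteDimensional M gK
  haveI : Normal K M := Normal.of_isSplittingField gK
  haveI : IsGalois K M := {}
  haveI : NumberField M := NumberField.of_module_finite K M
  exact frob_aux K τ g hg h M hSF.splits P₀

theorem frob {Ω : Type} [Field Ω] [CharZero Ω] [IsAlgClosed Ω] (K : Type) [Field K] [NumberField K]
    [Algebra K Ω] (τ : Ω ≃ₐ[K] Ω) (g : (𝓞 K)[X]) (hg : g ≠ 0)
    (h : ∀ z : Ω, g.eval₂ (algebraMap (𝓞 K) Ω) z = 0 → τ z ≠ z) (P₀ : ℕ) :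
    ∃ (p : ℕ) (_ : Fact p.Prime), P₀ < p ∧ ∃ ψ : 𝓞 K →+* ZMod p,
      ∀ y : ZMod p, (g.map ψ).eval y ≠ 0 := by
  classical
  have hinj : Function.Injective (algebraMap (𝓞 K) Ω) := by
    have h1 : algebraMap (𝓞 K) Ω = (algebraMap K Ω).comp (algebraMap (𝓞 K) K) := rfl
    rw [h1]
    exact (algebraMap K Ω).injective.comp RingOfIntegers.coe_injective
  set a : 𝓞 K := g.leadingCoeff with ha
  have ha0 : a ≠ 0 := leadingCoeff_ne_zero.2 hg
  rcases Nat.eq_zero_or_pos g.natDegree with hD | hD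
  · obtain ⟨n, hn, hn'⟩ := dvd_int ha0
    have h1 : ∀ z : Ω, (1 : (𝓞 K)[X]).eval₂ (algebraMap (𝓞 K) Ω) z = 0 → τ z ≠ z := by
      intro z hz
      simp at hz
    obtain ⟨p, hp, hlt, ψ, -⟩ := frob_monic K τ 1 monic_one h1 (max P₀ n)
    refine ⟨p, hp, lt_of_le_of_lt (le_max_left _ _) hlt, ψ, fun y hy => ?_⟩
    have h2 : ¬ p ∣ n := fun hdvd => by
      have := Nat.le_of_dvd (Nat.pos_of_ne_zero hn) hdvd
      have := lt_of_le_of_lt (le_max_right P₀ n) hlt
      omega
    refine hn' p h2 (ZMod p) ψ ?_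
    rw [eq_C_of_natDegree_eq_zero hD, map_C, eval_C] at hy
    rw [ha, leadingCoeff, hD]
    exact hy
  · have hmon : g.integralNormalization.Monic := monic_integralNormalization hg
    have h1 : ∀ z : Ω, g.integralNormalization.eval₂ (algebraMap (𝓞 K) Ω) z = 0 → τ z ≠ z := by
      intro z hz hfix
      have hA : algebraMap (𝓞 K) Ω a ≠ 0 := fun h0 => ha0 (hinj (by rw [h0, map_zero]))
      have h2 : z = algebraMap (𝓞 K) Ω a * (z / algebraMap (𝓞 K) Ω a) := by
        field_simp
      rw [h2, integralNormalization_eval₂_leadingCoeff_mul hD, mul_eq_zero] at hz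
      rcases hz with hz | hz
      · exact pow_ne_zero _ hA hz
      · refine h _ hz ?_
        have h3 : τ (algebraMap (𝓞 K) Ω a) = algebraMap (𝓞 K) Ω a := by
          have h4 : algebraMap (𝓞 K) Ω a = algebraMap K Ω (a : K) := rfl
          rw [h4]
          exact τ.commutes _
        rw [map_div₀, h3, hfix]
    obtain ⟨p, hp, hlt, ψ, hψ⟩ := frob_monic K τ _ hmon h1 P₀
    refine ⟨p, hp, hlt, ψ, fun y hy => hψ (ψ a * y) ?_⟩
    rw [eval_map] at hy ⊢
    rw [integralNormalization_eval₂_leadingCoeff_mul hD, hy, mul_zero]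

end Pool.Agent.SNP.B
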