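import Pool.Agent.Helper1.SP.Mert

/-!
# SNP-B-MEAN: mean values of numbers of homomorphisms

(a) `mean_hom`. PROOF. `Nat.card (𝓞 K →+* ZMod p) = (d1 K p).card` for primes `p` (`card_hom_eq`), `mertens_d1` (lower bound), `mertens_up` (upper bound);
take the maximum of the two thresholds. (Elements of `prm 0 n` are primes, `mem_prm`.)

(b) `exists_prime_pos`. PROOF. By contradiction: all primes `p > P₀` have `Σ a_i nh(K_i, p) ≤ 0`. Let `A` be the sum over the primes `p ≤ P₀` of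
`|Σ a_i nh(K_i, p)| log p / p`. Then for all `n` the sum over `p ∈ prm 0 n` of `(Σ a_i nh(K_i,p)) log p / p` is at most `A`; by (a) with a small `ε`
(`ε Σ |a_i| ≤ (Σ a_i) / 2`; if all `a_i` vanish the hypothesis fails) it is at least `(Σ a_i) log n - (Σ |a_i|) ε log n ≥ (Σ a_i)/2 · log n`, which tends to infinity. The same argument is
written out in `Pool/Agent/Helper59/DML/PrimesNR.lean` (`primes_nonsquare`).
-/

set_option autoImplicit false

namespace Pool.Agent.SNP.B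

open NumberField Pool.Agent.Helper1.SP Pool.Agent.Helper83.TW

theorem mean_hom (K : Type) [Field K] [NumberField K] :
    ∀ ε : ℝ, 0 < ε → ∃ n₀ : ℕ, ∀ n : ℕ, n₀ ≤ n →
      |∑ p ∈ prm 0 n, (Nat.card (𝓞 K →+* ZMod p) : ℝ) * (Real.log (p : ℝ) / (p : ℝ)) - Real.log n| ≤
        ε * Real.log n := by
  intro ε hε
  obtain ⟨n₁, hn₁⟩ := mertens_d1 K ε hε
  obtain ⟨n₂, hn₂⟩ := mertens_up K ε hε
  refine ⟨max n₁ n₂, fun n hn => ?_⟩
  have h1 := hn₁ n (le_trans (le_max_left _ _) hn)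
  have h2 := hn₂ n (le_trans (le_max_right _ _) hn)
  have h3 : ∑ p ∈ prm 0 n, (Nat.card (𝓞 K →+* ZMod p) : ℝ) * (Real.log (p : ℝ) / (p : ℝ)) =
      ∑ p ∈ prm 0 n, ((d1 K p).card : ℝ) * Real.log (p : ℝ) / (p : ℝ) := by
    refine Finset.sum_congr rfl fun p hp => ?_
    rw [card_hom_eq K p (mem_prm.1 hp).2.2, mul_div_assoc]
  rw [h3, abs_le]
  constructor
  · linarith
  · linarith

theorem exists_prime_pos {ι : Type} (s : Finset ι) (K : ι → Type) [∀ i, Field (K i)]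
    [∀ i, NumberField (K i)] (a : ι → ℝ) (ha : 0 < ∑ i ∈ s, a i) (P₀ : ℕ) :
    ∃ p : ℕ, p.Prime ∧ P₀ < p ∧ 0 < ∑ i ∈ s, a i * (Nat.card (𝓞 (K i) →+* ZMod p) : ℝ) := by
  classical
  by_contra hcon
  have hle : ∀ p : ℕ, p.Prime → P₀ < p →
      ∑ i ∈ s, a i * (Nat.card (𝓞 (K i) →+* ZMod p) : ℝ) ≤ 0 := by
    intro p hp hP
    by_contra h
    exact hcon ⟨p, hp, hP, lt_of_not_ge h⟩
  set D : ℝ := ∑ i ∈ s, |a i| with hD
  have hD0 : 0 ≤ D := Finset.sum_nonneg fun i _ => abs_nonneg _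
  set ε : ℝ := (∑ i ∈ s, a i) / (2 * (D + 1)) with hε
  have hε0 : 0 < ε := by positivity
  have hεD : ε * D ≤ (∑ i ∈ s, a i) / 2 := by
    rw [hε, div_mul_eq_mul_div, div_le_div_iff₀ (by positivity) (by norm_num)]
    nlinarith
  choose n₀ hn₀ using fun i => mean_hom (K i) ε hε0
  set A : ℝ := ∑ p ∈ prm 0 P₀, |(∑ i ∈ s, a i * (Nat.card (𝓞 (K i) →+* ZMod p) : ℝ)) *
    (Real.log (p : ℝ) / (p : ℝ))| with hA
  have hlim : ∀ᶠ n : ℕ in Filter.atTop, 2 * (A + 1) / (∑ i ∈ s, a i) ≤ Real.log (n : ℝ) :=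
    (Real.tendsto_log_atTop.comp tendsto_natCast_atTop_atTop).eventually_ge_atTop _
  obtain ⟨n₃, hn₃⟩ := Filter.eventually_atTop.mp hlim
  set n : ℕ := max 1 (max n₃ (s.sup n₀)) with hn
  have hn1 : 1 ≤ n := le_max_left _ _
  have hn3 : n₃ ≤ n := le_trans (le_max_left _ _) (le_max_right _ _)
  have hni : ∀ i ∈ s, n₀ i ≤ n := fun i hi =>
    le_trans (Finset.le_sup (f := n₀) hi) (le_trans (le_max_right _ _) (le_max_right _ _))
  have hlog : 0 ≤ Real.log (n : ℝ) := Real.log_natCast_nonneg n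
  have h1 : ∑ p ∈ prm 0 n, (∑ i ∈ s, a i * (Nat.card (𝓞 (K i) →+* ZMod p) : ℝ)) *
      (Real.log (p : ℝ) / (p : ℝ)) ≤ A := by
    rw [← Finset.sum_filter_add_sum_filter_not (prm 0 n) (fun p => p ≤ P₀)]
    have h2 : ∑ p ∈ (prm 0 n).filter (fun p => ¬ p ≤ P₀),
        (∑ i ∈ s, a i * (Nat.card (𝓞 (K i) →+* ZMod p) : ℝ)) *
          (Real.log (p : ℝ) / (p : ℝ)) ≤ 0 := by
      refine Finset.sum_nonpos fun p hp => ?_
      rw [Finset.mem_filter, mem_prm] at hp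
      refine mul_nonpos_of_nonpos_of_nonneg (hle p hp.1.2.2 (lt_of_not_ge hp.2)) ?_
      exact div_nonneg (Real.log_natCast_nonneg p) (Nat.cast_nonneg p)
    have h3 : ∑ p ∈ (prm 0 n).filter (fun p => p ≤ P₀),
        (∑ i ∈ s, a i * (Nat.card (𝓞 (K i) →+* ZMod p) : ℝ)) *
          (Real.log (p : ℝ) / (p : ℝ)) ≤ A := by
      refine (Finset.sum_le_sum fun p _ => le_abs_self _).trans ?_
      refine Finset.sum_le_sum_of_subset_of_nonneg ?_ fun p _ _ => abs_nonneg _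
      intro p hp
      rw [Finset.mem_filter, mem_prm] at hp
      rw [mem_prm]
      exact ⟨hp.1.1, hp.2, hp.1.2.2⟩
    linarith
  have h4 : ∑ p ∈ prm 0 n, (∑ i ∈ s, a i * (Nat.card (𝓞 (K i) →+* ZMod p) : ℝ)) *
      (Real.log (p : ℝ) / (p : ℝ)) =
      ∑ i ∈ s, a i * ∑ p ∈ prm 0 n, (Nat.card (𝓞 (K i) →+* ZMod p) : ℝ) *
        (Real.log (p : ℝ) / (p : ℝ)) := by
    simp only [Finset.sum_mul, Finset.mul_sum]
    rw [Finset.sum_comm]
    exact Finset.sum_congr rfl fun i _ => Finset.sum_congr rfl fun p _ => mul_assoc _ _ _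
  rw [h4] at h1
  have h5 : ∀ i ∈ s, a i * Real.log n - |a i| * (ε * Real.log n) ≤
      a i * ∑ p ∈ prm 0 n, (Nat.card (𝓞 (K i) →+* ZMod p) : ℝ) *
        (Real.log (p : ℝ) / (p : ℝ)) := by
    intro i hi
    have h6 := hn₀ i n (hni i hi)
    have h7 : |a i * (∑ p ∈ prm 0 n, (Nat.card (𝓞 (K i) →+* ZMod p) : ℝ) *
        (Real.log (p : ℝ) / (p : ℝ)) - Real.log n)| ≤ |a i| * (ε * Real.log n) := by
      rw [abs_mul]
      exact mul_le_mul_of_nonneg_left h6 (abs_nonneg _)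
    have h8 := (abs_le.1 h7).1
    rw [mul_sub] at h8
    linarith
  have h9 : (∑ i ∈ s, a i) * Real.log n - D * (ε * Real.log n) ≤ A := by
    refine le_trans (le_of_eq ?_) ((Finset.sum_le_sum h5).trans h1)
    rw [Finset.sum_sub_distrib, ← Finset.sum_mul, ← Finset.sum_mul]
  have h10 := hn₃ n hn3
  rw [div_le_iff₀ ha] at h10
  have h11 : ε * D * Real.log n ≤ (∑ i ∈ s, a i) / 2 * Real.log n :=
    mul_le_mul_of_nonneg_right hεD hlog
  nlinarith

end Pool.Agent.SNP.B
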