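import Mathlib

/-!
# SNP-B-MOEB: a Moebius identity in a finite cyclic group

(a) `moebius_gen`. PROOF. Write `c = σ ^ i` with `i : ℕ` (`mem_powers`, finite group: `mem_zpowers_iff_mem_range_orderOf` or `mem_powers_iff_mem_zpowers`). For `d ∣ n`:
`c ∈ zpowers (σ ^ d)` iff `d ∣ i` (if `σ ^ i = σ ^ (d j)` then `n ∣ i - d j` (`orderOf_dvd_sub_iff_zpow_eq_zpow`, integers), so `d ∣ i`). So the sum is
`∑ d ∈ n.divisors.filter (· ∣ i), μ d = ∑ d ∈ (gcd n i).divisors, μ d`, which is `1` if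
`gcd n i = 1` and `0` otherwise (`ArithmeticFunction.coe_moebius_mul_coe_zeta` or `ArithmeticFunction.sum_moebius...`; `∑ d ∈ m.divisors, μ d = if m = 1 then 1 else 0`). And `σ ^ i` generates iff
`gcd n i = 1`: `orderOf (σ ^ i) = n / gcd n i` (`orderOf_pow`), and `zpowers (σ ^ i) ≤ zpowers σ` with equality iff the cardinals agree (`Nat.card_zpowers`).

(b) `sum_moebius_pos`. PROOF. `∑ d ∈ n.divisors, μ d * (n / d) = φ n > 0` (Moebius inversion of `Nat.sum_totient`; for example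
`ArithmeticFunction.sum_eq_iff_sum_mul_moebius_eq`, or any other way; `Nat.totient_pos`). Or direct: by (a) with the group
`Multiplicative (ZMod n)` and `σ` its generator: sum (a) over all `c`: the left side is `∑ d ∣ n, μ d · #zpowers (σ ^ d) = ∑ d ∣ n, μ d (n/d)`, the right side counts generators, at least one.
-/

set_option autoImplicit false

namespace Pool.Agent.SNP.B

private theorem sum_mu (m : ℕ) :
    ∑ d ∈ m.divisors, ArithmeticFunction.moebius d = if m = 1 then 1 else 0 := by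
  rw [← ArithmeticFunction.one_apply, ← ArithmeticFunction.moebius_mul_coe_zeta,
    ArithmeticFunction.coe_mul_zeta_apply]

private theorem pow_mem_iff {G : Type} [Group G] (σ : G) {d i : ℕ} (hd : d ∣ orderOf σ) :
    σ ^ i ∈ Subgroup.zpowers (σ ^ d) ↔ d ∣ i := by
  constructor
  · intro h
    rw [Subgroup.mem_zpowers_iff] at h
    obtain ⟨j, hj⟩ := h
    have h1 : σ ^ ((d : ℤ) * j) = σ ^ (i : ℤ) := by
      rw [zpow_mul, zpow_natCast, hj, zpow_natCast]
    rw [zpow_eq_zpow_iff_modEq] at h1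
    have h2 : (orderOf σ : ℤ) ∣ (i : ℤ) - d * j := Int.ModEq.dvd h1
    have h3 : (d : ℤ) ∣ (i : ℤ) - d * j := (Int.natCast_dvd_natCast.mpr hd).trans h2
    have h4 : (d : ℤ) ∣ (i : ℤ) := by
      have h5 := dvd_add h3 (dvd_mul_right (d : ℤ) j)
      rwa [sub_add_cancel] at h5
    exact Int.natCast_dvd_natCast.mp h4
  · rintro ⟨k, rfl⟩
    rw [pow_mul]
    exact Subgroup.npow_mem_zpowers _ _

private theorem gen_iff {G : Type} [Group G] [Finite G] (σ : G)
    (hσ : ∀ h : G, h ∈ Subgroup.zpowers σ) (i : ℕ) :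
    (∀ h : G, h ∈ Subgroup.zpowers (σ ^ i)) ↔ (Nat.card G).gcd i = 1 := by
  have hn : orderOf σ = Nat.card G := orderOf_eq_card_of_forall_mem_zpowers hσ
  have hpos : 0 < Nat.card G := Nat.card_pos
  have ho : orderOf (σ ^ i) = Nat.card G / (Nat.card G).gcd i := by
    rw [orderOf_pow, hn]
  constructor
  · intro h
    have h1 : orderOf (σ ^ i) = Nat.card G := orderOf_eq_card_of_forall_mem_zpowers h
    rw [ho] at h1
    have h2 : (Nat.card G).gcd i ∣ Nat.card G := Nat.gcd_dvd_left _ _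
    have h3 := Nat.div_mul_cancel h2
    rw [h1] at h3
    exact Nat.eq_of_mul_eq_mul_left hpos (h3.trans (mul_one _).symm)
  · intro h
    rw [h, Nat.div_one] at ho
    have h1 : Nat.card (Subgroup.zpowers (σ ^ i)) = Nat.card G := by
      rw [Nat.card_zpowers, ho]
    have h2 : Subgroup.zpowers (σ ^ i) = ⊤ := Subgroup.eq_top_of_card_eq _ h1
    intro g
    rw [h2]
    exact Subgroup.mem_top g

open Classical in
theorem moebius_gen {G : Type} [Group G] [Finite G] (σ : G) (hσ : ∀ h : G, h ∈ Subgroup.zpowers σ) (c : G) :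
    (∑ d ∈ (Nat.card G).divisors,
      if c ∈ Subgroup.zpowers (σ ^ d) then ArithmeticFunction.moebius d else 0) =
      if (∀ h : G, h ∈ Subgroup.zpowers c) then 1 else 0 := by
  have hn : orderOf σ = Nat.card G := orderOf_eq_card_of_forall_mem_zpowers hσ
  have hpos : 0 < Nat.card G := Nat.card_pos
  have hc : c ∈ Submonoid.powers σ := mem_powers_iff_mem_zpowers.mpr (hσ c)
  obtain ⟨i, rfl⟩ := hc
  have hL : (∑ d ∈ (Nat.card G).divisors,
      if (fun x => σ ^ x) i ∈ Subgroup.zpowers (σ ^ d) then ArithmeticFunction.moebius d else 0) =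
      ∑ d ∈ ((Nat.card G).gcd i).divisors, ArithmeticFunction.moebius d := by
    rw [← Finset.sum_filter]
    refine Finset.sum_congr ?_ fun _ _ => rfl
    ext d
    rw [Finset.mem_filter, Nat.mem_divisors, Nat.mem_divisors]
    constructor
    · rintro ⟨⟨h1, h2⟩, h3⟩
      exact ⟨Nat.dvd_gcd h1 ((pow_mem_iff σ (hn ▸ h1)).mp h3),
        (Nat.gcd_pos_of_pos_left _ hpos).ne'⟩
    · rintro ⟨h1, -⟩
      have h4 : d ∣ Nat.card G := h1.trans (Nat.gcd_dvd_left _ _)
      exact ⟨⟨h4, hpos.ne'⟩, (pow_mem_iff σ (hn ▸ h4)).mpr (h1.trans (Nat.gcd_dvd_right _ _))⟩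
  rw [hL, sum_mu]
  have hg := gen_iff σ hσ i
  by_cases h : (Nat.card G).gcd i = 1
  · rw [if_pos h, if_pos (hg.mpr h)]
  · rw [if_neg h, if_neg (fun h' => h (hg.mp h'))]

theorem sum_moebius_pos {n : ℕ} (hn : n ≠ 0) :
    0 < ∑ d ∈ n.divisors, (ArithmeticFunction.moebius d : ℝ) * ((n / d : ℕ) : ℝ) := by
  have h1 : ∀ m > 0, ∑ i ∈ m.divisors, (Nat.totient i : ℝ) = ((m : ℕ) : ℝ) := by
    intro m _
    have h := Nat.sum_totient m
    exact_mod_cast h
  have h2 := (ArithmeticFunction.sum_eq_iff_sum_mul_moebius_eq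
    (f := fun i => (Nat.totient i : ℝ)) (g := fun m => ((m : ℕ) : ℝ))).mp h1 n
    (Nat.pos_of_ne_zero hn)
  have h3 := Nat.sum_divisorsAntidiagonal (n := n)
    (f := fun i j => ((ArithmeticFunction.moebius i : ℤ) : ℝ) * ((j : ℕ) : ℝ))
  rw [← h3, h2]
  have h4 : 0 < Nat.totient n := Nat.totient_pos.mpr (Nat.pos_of_ne_zero hn)
  exact_mod_cast h4

end Pool.Agent.SNP.B
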