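import Pool.Agent.SNP.B.Card
import Pool.Agent.SNP.B.Mean
import Pool.Agent.SNP.B.Moeb

/-!
# SNP-B-GEN: a prime whose Frobenius generates the cyclic group

PROOF. `G = Gal(M/E)` is cyclic of order `n`, generated by `σ`. For `d ∣ n` let `F_d` be the fixed field of `zpowers (σ ^ d)` (`IntermediateField.fixedField`), a number field, `M / F_d` Galois, and
`Gal(M / F_d)` is `zpowers (σ ^ d)` of order `n / d` (`IntermediateField.fixingSubgroup_fixedField`, `IntermediateField.fixingSubgroupEquiv`).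
`Yset F_d M p` is the set `Z_d` of all `x` with `Frob ∘ x = x ∘ act c` for some `c ∈ zpowers (σ ^ d) ≤ G`.
Let `p` be larger than `P₀` and than all the numbers `N` of `card_fix F_d M` (`d ∣ n`) and of `act_free E M`, and such that (`exists_prime_pos` with `K_d = F_d`, `a_d = μ(d) (n/d)`, `sum_moebius_pos`)
`0 < ∑_d μ(d) (n/d) #Hom(𝓞 F_d, ZMod p)`, which is `∑_d μ(d) #Z_d` by `card_fix`. If no `x` as required existed: for every `x ∈ Z_1` (finite) the element `c = c(x) ∈ G` with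
`Frob ∘ x = x ∘ act c` is unique (`act_free`), `x ∈ Z_d` iff `c(x) ∈ zpowers (σ ^ d)`, and (`moebius_gen`) `∑_d μ(d) [x ∈ Z_d] = [c(x) generates G] = 0`; summing over `x ∈ Z_1` gives
`∑_d μ(d) #Z_d = 0`, a contradiction (`Z_d ⊆ Z_1`).
-/

set_option autoImplicit false

namespace Pool.Agent.SNP.B

open NumberField Polynomial

/-- the fixed field of the subgroup generated by `σ ^ d` -/
private abbrev Fd {E M : Type} [Field E] [Field M] [Algebra E M] (σ : M ≃ₐ[E] M) (d : ℕ) :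
    IntermediateField E M := IntermediateField.fixedField (Subgroup.zpowers (σ ^ d))

private lemma mem_Yset_iff {E M : Type} [Field E] [Field M] [Algebra E M] [FiniteDimensional E M]
    (σ : M ≃ₐ[E] M) (d p : ℕ) [Fact p.Prime] (x : 𝓞 M →+* Kb p) :
    x ∈ Yset (Fd σ d) M p ↔
      ∃ c : M ≃ₐ[E] M, c ∈ Subgroup.zpowers (σ ^ d) ∧ (fr p).comp x = x.comp (act c) := by
  constructor
  · rintro ⟨h, hh⟩
    refine ⟨h.restrictScalars E, ?_, ?_⟩
    · rw [← IntermediateField.fixingSubgroup_fixedField (Subgroup.zpowers (σ ^ d))]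
      rw [IntermediateField.mem_fixingSubgroup_iff]
      intro y hy
      exact h.commutes ⟨y, hy⟩
    · rw [hh]
      rfl
  · rintro ⟨c, hc, hh⟩
    rw [← IntermediateField.fixingSubgroup_fixedField (Subgroup.zpowers (σ ^ d))] at hc
    refine ⟨IntermediateField.fixingSubgroupEquiv _ ⟨c, hc⟩, ?_⟩
    rw [hh]
    rfl

theorem exists_gen (E M : Type) [Field E] [NumberField E] [Field M] [NumberField M] [Algebra E M]
    [IsGalois E M] (σ : M ≃ₐ[E] M) (hσ : ∀ h : M ≃ₐ[E] M, h ∈ Subgroup.zpowers σ) (P₀ : ℕ) :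
    ∃ (p : ℕ) (_ : Fact p.Prime), P₀ < p ∧ ∃ (x : 𝓞 M →+* Kb p) (c : M ≃ₐ[E] M),
      (∀ h : M ≃ₐ[E] M, h ∈ Subgroup.zpowers c) ∧ (fr p).comp x = x.comp (act c) := by
  classical
  set n : ℕ := Nat.card (M ≃ₐ[E] M) with hn
  have hn0 : n ≠ 0 := Nat.card_pos.ne'
  -- order of sigma
  have hord : orderOf σ = n := by
    rw [hn, ← Nat.card_zpowers]
    have : Subgroup.zpowers σ = ⊤ := by
      rw [eq_top_iff]
      intro h _
      exact hσ h
    rw [this]
    exact Nat.card_congr Subgroup.topEquiv.toEquiv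
  have hcardH : ∀ d ∈ n.divisors, Nat.card (M ≃ₐ[Fd σ d] M) = n / d := by
    intro d hd
    have hdn : d ∣ n := Nat.dvd_of_mem_divisors hd
    have hd0 : d ≠ 0 := fun h => by
      rw [h] at hdn
      exact hn0 (Nat.eq_zero_of_zero_dvd hdn)
    have e1 : Nat.card (M ≃ₐ[Fd σ d] M) = Nat.card (Subgroup.zpowers (σ ^ d)) :=
      (Nat.card_congr (IntermediateField.subgroupEquivAlgEquiv _).toEquiv).symm
    rw [e1, Nat.card_zpowers, orderOf_pow_of_dvd hd0 (by rw [hord]; exact hdn), hord]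
  -- the bad numbers
  have hcf := fun d : ℕ => card_fix (Fd σ d) M
  choose Nf hNf0 hNf using hcf
  obtain ⟨Na, hNa0, hNa⟩ := act_free E M
  have hpos : 0 < ∑ d ∈ n.divisors, (fun d : ℕ =>
      (ArithmeticFunction.moebius d : ℝ) * ((n / d : ℕ) : ℝ)) d := sum_moebius_pos hn0
  obtain ⟨p, hp, hpP, hsum⟩ := exists_prime_pos n.divisors (fun d : ℕ => Fd σ d)
    (fun d : ℕ => (ArithmeticFunction.moebius d : ℝ) * ((n / d : ℕ) : ℝ)) hpos
    (P₀ + Na + ∑ d ∈ n.divisors, Nf d)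
  haveI : Fact p.Prime := ⟨hp⟩
  refine ⟨p, ⟨hp⟩, by omega, ?_⟩
  have hpa : ¬ p ∣ Na := fun h => by
    have := Nat.le_of_dvd (Nat.pos_of_ne_zero hNa0) h
    omega
  have hpf : ∀ d ∈ n.divisors, ¬ p ∣ Nf d := fun d hd h => by
    have h1 := Nat.le_of_dvd (Nat.pos_of_ne_zero (hNf0 d)) h
    have h2 : Nf d ≤ ∑ d ∈ n.divisors, Nf d :=
      Finset.single_le_sum (f := Nf) (fun _ _ => Nat.zero_le _) hd
    omega
  by_contra hcon
  push Not at hcon
  -- finiteness of the whole set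
  have h1mem : 1 ∈ n.divisors := Nat.one_mem_divisors.mpr hn0
  have hfin1 := (hNf 1 p (hpf 1 h1mem)).1
  set S : Finset (𝓞 M →+* Kb p) := hfin1.toFinset with hS
  have hex : ∀ x : 𝓞 M →+* Kb p, ∃ c : M ≃ₐ[E] M, x ∈ S → (fr p).comp x = x.comp (act c) := by
    intro x
    by_cases hx : x ∈ S
    · rw [hS, Set.Finite.mem_toFinset, mem_Yset_iff] at hx
      obtain ⟨c, _, hc⟩ := hx
      exact ⟨c, fun _ => hc⟩
    · exact ⟨1, fun h => absurd h hx⟩
  choose c hc using hex
  have huniq : ∀ x ∈ S, ∀ c' : M ≃ₐ[E] M, (fr p).comp x = x.comp (act c') → c' = c x := by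
    intro x hx c' hc'
    have h1 : x.comp (act c') = x.comp (act (c x)) := by rw [← hc', ← hc x hx]
    have h2 : x.comp (act (c' * (c x)⁻¹)) = x := by
      rw [act_mul, ← RingHom.comp_assoc, h1, RingHom.comp_assoc, ← act_mul, mul_inv_cancel, act_one,
        RingHom.comp_id]
    have h3 := hNa p hpa (Kb p) x _ h2
    exact mul_inv_eq_one.mp h3
  have hYd : ∀ d ∈ n.divisors, (Yset (Fd σ d) M p).ncard =
      (S.filter (fun x => c x ∈ Subgroup.zpowers (σ ^ d))).card := by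
    intro d hd
    rw [← Set.ncard_coe_finset]
    congr 1
    ext x
    rw [mem_Yset_iff, Finset.mem_coe, Finset.mem_filter]
    constructor
    · rintro ⟨c', hc', hh⟩
      have hxS : x ∈ S := by
        rw [hS, Set.Finite.mem_toFinset, mem_Yset_iff]
        refine ⟨c', ?_, hh⟩
        rw [pow_one]
        exact hσ c'
      refine ⟨hxS, ?_⟩
      rw [← huniq x hxS c' hh]
      exact hc'
    · rintro ⟨hxS, hcx⟩
      exact ⟨c x, hcx, hc x hxS⟩
  -- the Moebius sum vanishes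
  have hzero : ∀ x ∈ S, (∑ d ∈ n.divisors,
      if c x ∈ Subgroup.zpowers (σ ^ d) then ArithmeticFunction.moebius d else 0) = 0 := by
    intro x hx
    have h1 := moebius_gen σ hσ (c x)
    rw [← hn] at h1
    have h2 : ¬ (∀ h : M ≃ₐ[E] M, h ∈ Subgroup.zpowers (c x)) := fun h =>
      hcon x (c x) h (hc x hx)
    rw [if_neg h2] at h1
    refine Eq.trans (Finset.sum_congr rfl (fun d _ => ?_)) h1
    by_cases h : c x ∈ Subgroup.zpowers (σ ^ d)
    · simp only [if_pos h]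
    · simp only [if_neg h]
  have key : ∑ d ∈ n.divisors, (fun d : ℕ =>
      (ArithmeticFunction.moebius d : ℝ) * ((n / d : ℕ) : ℝ)) d *
        (Nat.card (𝓞 (Fd σ d) →+* ZMod p) : ℝ) = 0 := by
    have e1 : ∀ d ∈ n.divisors, (fun d : ℕ =>
        (ArithmeticFunction.moebius d : ℝ) * ((n / d : ℕ) : ℝ)) d *
        (Nat.card (𝓞 (Fd σ d) →+* ZMod p) : ℝ) =
        ((∑ x ∈ S, (if c x ∈ Subgroup.zpowers (σ ^ d) then
          ArithmeticFunction.moebius d else 0 : ℤ) : ℤ) : ℝ) := by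
      intro d hd
      have h1 := (hNf d p (hpf d hd)).2
      rw [hcardH d hd, hYd d hd] at h1
      have h2 : ((n / d : ℕ) : ℝ) * (Nat.card (𝓞 (Fd σ d) →+* ZMod p) : ℝ) =
          ((S.filter (fun x => c x ∈ Subgroup.zpowers (σ ^ d))).card : ℝ) := by
        rw [h1, Nat.cast_mul]
      show (ArithmeticFunction.moebius d : ℝ) * ((n / d : ℕ) : ℝ) *
        (Nat.card (𝓞 (Fd σ d) →+* ZMod p) : ℝ) = _
      rw [mul_assoc, h2, ← Finset.sum_filter, Finset.sum_const, nsmul_eq_mul]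
      push_cast
      ring
    rw [Finset.sum_congr rfl e1, ← Int.cast_sum, Finset.sum_comm, Finset.sum_congr rfl hzero]
    simp
  rw [key] at hsum
  exact lt_irrefl _ hsum

end Pool.Agent.SNP.B
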