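import Pool.Agent.SNP.B.Gen

/-!
# SNP-B-ROOTS: no roots modulo a prime, monic polynomials

PROOF. `E = IntermediateField.fixedField (Subgroup.zpowers σ)` (a number field), `M / E` is Galois with group `zpowers σ`; let `σ'` be the corresponding
element of `M ≃ₐ[E] M` (same function on `M`), a generator. Let `r` run over the roots of `g` in `𝓞 M` (finite set); `N` = product over all pairs of
`r` and `c ∈ Gal(M/K)` with `c r ≠ r` of the numbers of `dvd_int` for `act c r - r`. `exists_gen E M σ'` with `P₀' = max P₀ N` gives `p`, `x`, `c`. On `𝓞 K` the homomorphism `x` is fixed by `Frob`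
(`c` fixes `K ⊆ E`; `act_algebraMap`), so `x ∘ algebraMap = ι ∘ ψ`, `ψ : 𝓞 K →+* ZMod p` (`fr_comp_fixed`). If `y : ZMod p` is a root of
`g.map ψ`, then `ι y` is a root of `(g.map (algebraMap (𝓞 K) (𝓞 M))).map x`; `g.map (algebraMap ..)` is a product of `X - C r` (monic and split in `M`, roots integral: work in `M[X]`, `Polynomial.Splits`, and
`IsIntegral`; or use the hypothesis `hsplit` below directly), so `ι y = x r` for a root `r`. Then `x (act c r) = Frob (x r) = x r`, so `act c r = r` (choice of `N`), so the generator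
`c` of `zpowers σ'` fixes `r`, hence `σ r = r`, a contradiction.
-/

set_option autoImplicit false

namespace Pool.Agent.SNP.B

open NumberField Polynomial

/-- one number controlling `act c r - r` -/
private theorem rm_num {E M : Type} [Field E] [NumberField E] [Field M] [NumberField M] [Algebra E M]
    (c : M ≃ₐ[E] M) (r : 𝓞 M) : ∃ n : ℕ, n ≠ 0 ∧ ∀ p : ℕ, ¬ p ∣ n →
      ∀ (k : Type) [Field k] [CharP k p] (x : 𝓞 M →+* k), x (act c r) = x r → act c r = r := by
  by_cases h : act c r - r = 0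
  · exact ⟨1, one_ne_zero, fun _ _ _ _ _ _ _ => sub_eq_zero.mp h⟩
  · obtain ⟨n, hn, hp⟩ := dvd_int h
    refine ⟨n, hn, ?_⟩
    intro p hpn k _ _ x hx
    exfalso
    apply hp p hpn k x
    rw [map_sub, hx, sub_self]

/-- `g` is monic and a product of linear factors over `𝓞 M`, and `σ` fixes none of its roots. -/
theorem roots_monic (K M : Type) [Field K] [NumberField K] [Field M] [NumberField M] [Algebra K M]
    [IsGalois K M] (σ : M ≃ₐ[K] M) (g : (𝓞 K)[X]) (s : Multiset (𝓞 M))
    (hsplit : g.map (algebraMap (𝓞 K) (𝓞 M)) = (s.map fun r => X - C r).prod)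
    (hno : ∀ r ∈ s, σ (r : M) ≠ r) (P₀ : ℕ) :
    ∃ (p : ℕ) (_ : Fact p.Prime), P₀ < p ∧ ∃ ψ : 𝓞 K →+* ZMod p,
      ∀ y : ZMod p, (g.map ψ).eval y ≠ 0 := by
  classical
  -- the fixed field and the generator
  let E := IntermediateField.fixedField (Subgroup.zpowers σ)
  have hfix : E.fixingSubgroup = Subgroup.zpowers σ :=
    IntermediateField.fixingSubgroup_fixedField _
  let e := IntermediateField.fixingSubgroupEquiv E
  have hσm : σ ∈ E.fixingSubgroup := by rw [hfix]; exact Subgroup.mem_zpowers σ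
  let σ₁ : E.fixingSubgroup := ⟨σ, hσm⟩
  let σ' : M ≃ₐ[E] M := e σ₁
  have hσ' : ∀ z : M, σ' z = σ z := fun z => rfl
  have hgen : ∀ h : M ≃ₐ[E] M, h ∈ Subgroup.zpowers σ' := by
    intro h
    have h1 : ((e.symm h : E.fixingSubgroup) : M ≃ₐ[K] M) ∈ Subgroup.zpowers σ := by
      rw [← hfix]
      exact (e.symm h).2
    obtain ⟨i, hi⟩ := h1
    refine ⟨i, ?_⟩
    have h2 : σ₁ ^ i = e.symm h := by
      apply Subtype.ext
      rw [← hi]
      rfl
    change (e σ₁) ^ i = h
    rw [← map_zpow, h2, MulEquiv.apply_symm_apply]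
  -- the bad primes
  choose num hnum0 hnum using fun (c : M ≃ₐ[E] M) (r : 𝓞 M) => rm_num c r
  have : Fintype (M ≃ₐ[E] M) := Fintype.ofFinite _
  let N : ℕ := ∏ r ∈ s.toFinset, ∏ c : M ≃ₐ[E] M, num c r
  have hN : N ≠ 0 := Finset.prod_ne_zero_iff.mpr fun r _ =>
    Finset.prod_ne_zero_iff.mpr fun c _ => hnum0 c r
  obtain ⟨p, hpf, hp, x, c, hc, hx⟩ := exists_gen E M σ' hgen (max P₀ N)
  refine ⟨p, hpf, lt_of_le_of_lt (le_max_left _ _) hp, ?_⟩
  have hpN : ¬ p ∣ N := fun h =>
    absurd (Nat.le_of_dvd (Nat.pos_of_ne_zero hN) h)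
      (not_le.mpr (lt_of_le_of_lt (le_max_right _ _) hp))
  have hpn : ∀ r ∈ s, ¬ p ∣ num c r := by
    intro r hr h
    apply hpN
    exact (h.trans (Finset.dvd_prod_of_mem (fun c => num c r) (Finset.mem_univ c))).trans
      (Finset.dvd_prod_of_mem (fun r => ∏ c : M ≃ₐ[E] M, num c r) (Multiset.mem_toFinset.mpr hr))
  -- the restriction to `𝓞 K`
  have hK : (fr p).comp (x.comp (algebraMap (𝓞 K) (𝓞 M))) = x.comp (algebraMap (𝓞 K) (𝓞 M)) := by
    rw [← RingHom.comp_assoc, hx]
    ext a
    rw [RingHom.comp_apply, RingHom.comp_apply, RingHom.comp_apply]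
    congr 1
    apply RingOfIntegers.ext
    rw [act_coe]
    change c (algebraMap K M (a : K)) = algebraMap K M (a : K)
    rw [IsScalarTower.algebraMap_apply K E M]
    exact c.commutes _
  obtain ⟨ψ, hψ⟩ := fr_comp_fixed hK
  refine ⟨ψ, ?_⟩
  intro y hy
  have h1 : ((g.map (algebraMap (𝓞 K) (𝓞 M))).map x).eval (algebraMap (ZMod p) (Kb p) y) = 0 := by
    rw [Polynomial.map_map, hψ, ← Polynomial.map_map, Polynomial.eval_map_algebraMap,
      Polynomial.aeval_algebraMap_apply, Polynomial.coe_aeval_eq_eval, hy, map_zero]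
  rw [hsplit, Polynomial.map_multiset_prod, Polynomial.eval_multiset_prod, Multiset.map_map,
    Multiset.map_map, Multiset.prod_eq_zero_iff, Multiset.mem_map] at h1
  obtain ⟨r, hr, h2⟩ := h1
  rw [Function.comp_apply, Function.comp_apply, Polynomial.map_sub, Polynomial.map_X,
    Polynomial.map_C, Polynomial.eval_sub, Polynomial.eval_X, Polynomial.eval_C, sub_eq_zero] at h2
  have h3 : x (act c r) = x r := by
    have h4 : x (act c r) = fr p (x r) := by
      have := RingHom.congr_fun hx r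
      exact this.symm
    rw [h4, ← h2, fr_apply, ← map_pow, ZMod.pow_card]
  have h5 : act c r = r := hnum c r p (hpn r hr) (Kb p) x h3
  -- the stabiliser of `r`
  have h6 : ∀ i : ℤ, (c ^ i) (r : M) = r := by
    have h7 : c (r : M) = r := by
      have := congrArg (fun z : 𝓞 M => (z : M)) h5
      exact this
    have h8 : c ∈ MulAction.stabilizer (M ≃ₐ[E] M) (r : M) := h7
    intro i
    exact Subgroup.zpow_mem _ h8 i
  obtain ⟨i, hi⟩ := hc σ'
  apply hno r hr
  rw [← hσ' (r : M), ← hi]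
  exact h6 i

end Pool.Agent.SNP.B
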