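import Pool.Agent.SNP.B.Ext
import Pool.Agent.SNP.B.Fib

/-!
# SNP-B-TORS: for large `p` the fibres are torsors under the Galois group

(a) `act_free`. PROOF. `M ≃ₐ[F] M` is finite. For every `h ≠ 1` there is `β_h : 𝓞 M` with `act h β_h ≠ β_h` (some `z : M` has
`h z ≠ z`; a nonzero integer multiple of `z` is integral). `dvd_int` for `act h β_h - β_h ≠ 0` gives `n_h`; take the product over all `h ≠ 1`
(finite type; `Finset.prod`, `Finset.dvd_prod_of_mem`). If `x.comp (act h) = x` then `x (act h β_h - β_h) = 0`, a contradiction.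

(b) `tors`. PROOF. `N` = product of the numbers of `fibre_le F M` and `act_free F M`. Let `p` be prime, `¬ p ∣ N`, and `k` algebraically closed of
characteristic `p`. By `exists_ext` the fibre over `θ` is nonempty; let `x` be in it. For all `h`, `x.comp (act h)` is in the fibre (`act_algebraMap`), and
`h ↦ x.comp (act h)` is injective by (a) (if `x.comp (act h) = x.comp (act h')` compose on the right with `act h'⁻¹`, `act_mul`,
`act_one`). `Nat.card (M ≃ₐ[F] M) = finrank F M` (`IsGalois.card_aut_eq_finrank`), so by `fibre_le` the orbit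
of `x` is the whole fibre, and the fibre has exactly `Nat.card (M ≃ₐ[F] M)` elements (`Set.eq_of_subset_of_ncard_le`).
-/

set_option autoImplicit false

namespace Pool.Agent.SNP.B

open NumberField Polynomial

private theorem exists_moved {F M : Type} [Field F] [Field M] [NumberField M] [Algebra F M]
    {h : M ≃ₐ[F] M} (hh : h ≠ 1) : ∃ β : 𝓞 M, act h β - β ≠ 0 := by
  by_contra hcon
  push Not at hcon
  apply hh
  ext z
  obtain ⟨a, b, hb, rfl⟩ := IsFractionRing.div_surjective (A := 𝓞 M) z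
  have ha : h (algebraMap (𝓞 M) M a) = algebraMap (𝓞 M) M a := by
    have := sub_eq_zero.1 (hcon a)
    have h2 := congrArg (algebraMap (𝓞 M) M) this
    exact h2
  have hb' : h (algebraMap (𝓞 M) M b) = algebraMap (𝓞 M) M b := by
    have := sub_eq_zero.1 (hcon b)
    have h2 := congrArg (algebraMap (𝓞 M) M) this
    exact h2
  rw [map_div₀, ha, hb']
  rfl

theorem act_free (F M : Type) [Field F] [NumberField F] [Field M] [NumberField M] [Algebra F M] :
    ∃ N : ℕ, N ≠ 0 ∧ ∀ p : ℕ, ¬ p ∣ N → ∀ (k : Type) [Field k] [CharP k p] (x : 𝓞 M →+* k)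
      (h : M ≃ₐ[F] M), x.comp (act h) = x → h = 1 := by
  classical
  have : Module.Finite F M := Module.Finite.of_restrictScalars_finite ℚ F M
  have key : ∀ h : M ≃ₐ[F] M, ∃ n : ℕ, n ≠ 0 ∧ (h ≠ 1 → ∀ p : ℕ, ¬ p ∣ n → ∀ (k : Type) [Field k]
      [CharP k p] (x : 𝓞 M →+* k), x.comp (act h) ≠ x) := by
    intro h
    by_cases hh : h = 1
    · exact ⟨1, one_ne_zero, fun hc => absurd hh hc⟩
    · obtain ⟨β, hβ⟩ := exists_moved hh
      obtain ⟨n, hn, hn2⟩ := dvd_int hβ
      refine ⟨n, hn, fun _ p hp k _ _ x hx => hn2 p hp k x ?_⟩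
      rw [map_sub, sub_eq_zero]
      exact congrArg (fun g : 𝓞 M →+* k => g β) hx
  choose n hn hn2 using key
  refine ⟨∏ h, n h, Finset.prod_ne_zero_iff.2 fun h _ => hn h, ?_⟩
  intro p hp k _ _ x h hx
  by_contra hh
  exact hn2 h hh p (fun hd => hp (hd.trans (Finset.dvd_prod_of_mem n (Finset.mem_univ h)))) k x hx

theorem tors (F M : Type) [Field F] [NumberField F] [Field M] [NumberField M] [Algebra F M]
    [IsGalois F M] :
    ∃ N : ℕ, N ≠ 0 ∧ ∀ p : ℕ, p.Prime → ¬ p ∣ N → ∀ (k : Type) [Field k] [CharP k p] [IsAlgClosed k]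
      (θ : 𝓞 F →+* k),
      {x : 𝓞 M →+* k | x.comp (algebraMap (𝓞 F) (𝓞 M)) = θ}.Finite ∧
      {x : 𝓞 M →+* k | x.comp (algebraMap (𝓞 F) (𝓞 M)) = θ}.ncard = Nat.card (M ≃ₐ[F] M) ∧
      ∀ x y : 𝓞 M →+* k, x.comp (algebraMap (𝓞 F) (𝓞 M)) = θ →
        y.comp (algebraMap (𝓞 F) (𝓞 M)) = θ → ∃ h : M ≃ₐ[F] M, y = x.comp (act h) := by
  have : Module.Finite F M := Module.Finite.of_restrictScalars_finite ℚ F M
  obtain ⟨N1, hN1, h1⟩ := fibre_le F M
  obtain ⟨N2, hN2, h2⟩ := act_free F M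
  refine ⟨N1 * N2, mul_ne_zero hN1 hN2, ?_⟩
  intro p hp hpN k _ _ _ θ
  obtain ⟨hfin, hle⟩ := h1 p hp (fun hd => hpN (hd.mul_right _)) k θ
  have hfree := h2 p (fun hd => hpN (hd.mul_left _)) k
  have hinj : ∀ x : 𝓞 M →+* k, Function.Injective (fun h : M ≃ₐ[F] M => x.comp (act h)) := by
    intro x h h' hx
    have hx' : x.comp (act h) = x.comp (act h') := hx
    have e : x.comp (act (h * h'⁻¹)) = x := by
      rw [act_mul, ← RingHom.comp_assoc, hx', RingHom.comp_assoc, ← act_mul, mul_inv_cancel,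
        act_one, RingHom.comp_id]
    exact mul_inv_eq_one.1 (hfree x _ e)
  have horb : ∀ x : 𝓞 M →+* k, x.comp (algebraMap (𝓞 F) (𝓞 M)) = θ →
      (fun h : M ≃ₐ[F] M => x.comp (act h)) '' Set.univ =
        {x : 𝓞 M →+* k | x.comp (algebraMap (𝓞 F) (𝓞 M)) = θ} := by
    intro x hx
    refine Set.eq_of_subset_of_ncard_le ?_ ?_ hfin
    · rintro _ ⟨h, -, rfl⟩
      change (x.comp (act h)).comp (algebraMap (𝓞 F) (𝓞 M)) = θ
      rw [RingHom.comp_assoc]
      have : (act h).comp (algebraMap (𝓞 F) (𝓞 M)) = algebraMap (𝓞 F) (𝓞 M) :=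
        RingHom.ext fun y => act_algebraMap h y
      rw [this, hx]
    · rw [Set.ncard_image_of_injective _ (hinj x), Set.ncard_univ,
        IsGalois.card_aut_eq_finrank F M]
      exact hle
  obtain ⟨x₀, hx₀⟩ := exists_ext (M := M) θ
  refine ⟨hfin, ?_, ?_⟩
  · rw [← horb x₀ hx₀, Set.ncard_image_of_injective _ (hinj x₀), Set.ncard_univ]
  · intro x y hx hy
    have : y ∈ {x : 𝓞 M →+* k | x.comp (algebraMap (𝓞 F) (𝓞 M)) = θ} := hy
    rw [← horb x hx] at this
    obtain ⟨h, -, hh⟩ := this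
    exact ⟨h, hh.symm⟩

end Pool.Agent.SNP.B
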